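import Mathlib

/-!
# Sums over independent sets between two finite sets
-/

set_option autoImplicit false

open Classical

namespace Pool.Agent.Lib.MP_16c009_co_sw

open Finset

variable {E : Type*} [DecidableEq E]

/-- The sum of the weights of the sets `X` with `S ⊆ X ⊆ N` and `X ∪ T` independent. -/
noncomputable def V (M : Matroid E) (z : E → ℝ) (N S T : Finset E) : ℝ :=
  ∑ X ∈ N.powerset.filter (fun X : Finset E => S ⊆ X ∧ M.Indep ((X ∪ T : Finset E) : Set E)), ∏ a ∈ X, z a

theorem V_nonneg (M : Matroid E) (z : E → ℝ) (hz : ∀ a, 0 < z a) (N S T : Finset E) : 0 ≤ V M z N S T :=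
  Finset.sum_nonneg fun _ _ => Finset.prod_nonneg fun a _ => (hz a).le

theorem V_mono (M : Matroid E) (z : E → ℝ) (hz : ∀ a, 0 < z a) (N S S' T : Finset E) (h : S ⊆ S') :
    V M z N S' T ≤ V M z N S T := by
  unfold V
  refine Finset.sum_le_sum_of_subset_of_nonneg ?_ fun X _ _ => Finset.prod_nonneg fun a _ => (hz a).le
  intro X hX
  rw [mem_filter] at hX ⊢
  exact ⟨hX.1, h.trans hX.2.1, hX.2.2⟩

theorem V_eq_ite (M : Matroid E) (z : E → ℝ) (N S T : Finset E) :
    V M z N S T = ∑ X ∈ N.powerset,
      if S ⊆ X ∧ M.Indep ((X ∪ T : Finset E) : Set E) then ∏ a ∈ X, z a else 0 := by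
  unfold V
  rw [Finset.sum_filter]

theorem V_insert (M : Matroid E) (z : E → ℝ) (N S T : Finset E) (p : E) (hp : p ∉ N) (hS : S ⊆ N) :
    V M z (insert p N) S T = V M z N S T + z p * V M z N S (insert p T) := by
  rw [V_eq_ite, V_eq_ite, V_eq_ite, Finset.sum_powerset_insert hp, Finset.mul_sum]
  congr 1
  refine Finset.sum_congr rfl fun X hX => ?_
  rw [mem_powerset] at hX
  have hpX : p ∉ X := fun h => hp (hX h)
  have hpS : p ∉ S := fun h => hp (hS h)
  have h1 : S ⊆ insert p X ↔ S ⊆ X := by
    constructor
    · intro h a ha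
      rcases mem_insert.mp (h ha) with h2 | h2
      · exact absurd (h2 ▸ ha) hpS
      · exact h2
    · intro h
      exact h.trans (subset_insert _ _)
  have h2 : (insert p X ∪ T : Finset E) = X ∪ insert p T := by
    ext a
    simp only [mem_union, mem_insert]
    tauto
  by_cases h3 : S ⊆ X ∧ M.Indep ((X ∪ insert p T : Finset E) : Set E)
  · rw [if_pos h3, if_pos ⟨h1.mpr h3.1, by rw [h2]; exact h3.2⟩, Finset.prod_insert hpX]
  · rw [if_neg h3, if_neg (fun h4 => h3 ⟨h1.mp h4.1, by rw [← h2]; exact h4.2⟩), mul_zero]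

theorem V_insert_both (M : Matroid E) (z : E → ℝ) (N S T : Finset E) (p : E) (hp : p ∉ N) (hS : S ⊆ N) :
    V M z (insert p N) (insert p S) T = z p * V M z N S (insert p T) := by
  rw [V_eq_ite, V_eq_ite, Finset.sum_powerset_insert hp, Finset.mul_sum]
  have h0 : ∑ X ∈ N.powerset,
      (if insert p S ⊆ X ∧ M.Indep ((X ∪ T : Finset E) : Set E) then ∏ a ∈ X, z a else 0) = 0 := by
    refine Finset.sum_eq_zero fun X hX => ?_
    rw [mem_powerset] at hX
    rw [if_neg]
    intro h
    exact hp (hX (h.1 (mem_insert_self _ _)))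
  rw [h0, zero_add]
  refine Finset.sum_congr rfl fun X hX => ?_
  rw [mem_powerset] at hX
  have hpX : p ∉ X := fun h => hp (hX h)
  have hpS : p ∉ S := fun h => hp (hS h)
  have h1 : insert p S ⊆ insert p X ↔ S ⊆ X := by
    constructor
    · intro h a ha
      rcases mem_insert.mp (h (mem_insert_of_mem ha)) with h2 | h2
      · exact absurd (h2 ▸ ha) hpS
      · exact h2
    · intro h
      exact insert_subset_insert _ h
  have h2 : (insert p X ∪ T : Finset E) = X ∪ insert p T := by
    ext a
    simp only [mem_union, mem_insert]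
    tauto
  by_cases h3 : S ⊆ X ∧ M.Indep ((X ∪ insert p T : Finset E) : Set E)
  · rw [if_pos h3, if_pos ⟨h1.mpr h3.1, by rw [h2]; exact h3.2⟩, Finset.prod_insert hpX]
  · rw [if_neg h3, if_neg (fun h4 => h3 ⟨h1.mp h4.1, by rw [← h2]; exact h4.2⟩), mul_zero]

/-- Pairwise negative correlation inside `N`, given any set `S`. -/
def NC (M : Matroid E) (z : E → ℝ) (N : Finset E) : Prop :=
  ∀ S : Finset E, S ⊆ N → ∀ p ∈ N, ∀ q ∈ N, p ∉ S → q ∉ S → p ≠ q →
    V M z N (insert p (insert q S)) ∅ * V M z N S ∅ ≤ V M z N (insert p S) ∅ * V M z N (insert q S) ∅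

theorem cancel_aux {A B C D F G : ℝ} (hA : 0 ≤ A) (hB : 0 ≤ B) (hC : 0 ≤ C) (hG : 0 ≤ G) (hAB : A ≤ B)
    (hF : 0 ≤ F) (h1 : A * B ≤ C * D) (h2 : D * F ≤ B * G) : A * F ≤ C * G := by
  rcases hB.eq_or_lt with h | h
  · have : A = 0 := le_antisymm (h ▸ hAB) hA
    rw [this, zero_mul]
    exact mul_nonneg hC hG
  · have h3 : A * B * F ≤ C * D * F := mul_le_mul_of_nonneg_right h1 hF
    have h4 : C * (D * F) ≤ C * (B * G) := mul_le_mul_of_nonneg_left h2 hC
    have h5 : (A * F) * B ≤ (C * G) * B := by nlinarith
    exact le_of_mul_le_mul_right h5 h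

theorem nc_one {M : Matroid E} {z : E → ℝ} (hz : ∀ a, 0 < z a) {N : Finset E} (h : NC M z N) (q : E)
    (hq : q ∈ N) (P : Finset E) : ∀ S : Finset E, S ⊆ N → P ⊆ N → (q ∈ P → q ∈ S) →
    V M z N (S ∪ P ∪ {q}) ∅ * V M z N S ∅ ≤ V M z N (S ∪ P) ∅ * V M z N (S ∪ {q}) ∅ := by
  induction P using Finset.induction_on with
  | empty =>
    intro S hS _ _
    rw [union_empty, mul_comm]
  | insert p P hpP ih =>
    intro S hS hP hqP
    have hPN : P ⊆ N := (subset_insert _ _).trans hP
    have hpN : p ∈ N := hP (mem_insert_self _ _)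
    by_cases hpS : p ∈ S
    · have e1 : S ∪ insert p P = S ∪ P := by
        ext a
        simp only [mem_union, mem_insert]
        constructor
        · rintro (h1 | rfl | h1)
          · exact Or.inl h1
          · exact Or.inl hpS
          · exact Or.inr h1
        · rintro (h1 | h1)
          · exact Or.inl h1
          · exact Or.inr (Or.inr h1)
      rw [e1]
      exact ih S hS hPN fun h1 => hqP (mem_insert_of_mem h1)
    · by_cases hqS : q ∈ S
      · have e1 : S ∪ insert p P ∪ {q} = S ∪ insert p P := by
          ext a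
          simp only [mem_union, mem_insert, mem_singleton]
          constructor
          · rintro ((h1 | h1) | rfl)
            · exact Or.inl h1
            · exact Or.inr h1
            · exact Or.inl hqS
          · intro h1
            exact Or.inl h1
        have e2 : S ∪ {q} = S := by
          ext a
          simp only [mem_union, mem_singleton]
          constructor
          · rintro (h1 | rfl)
            · exact h1
            · exact hqS
          · intro h1
            exact Or.inl h1
        rw [e1, e2]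
      · have hqp : p ≠ q := by
          rintro rfl
          exact hqS (hqP (mem_insert_self _ _))
        have hqP' : q ∉ P := fun h1 => hqS (hqP (mem_insert_of_mem h1))
        have i1 := ih (insert p S) (insert_subset hpN hS) hPN (fun h1 => absurd h1 hqP')
        have i2 := h S hS p hpN q hq hpS hqS hqp
        have e1 : insert p S ∪ P = S ∪ insert p P := by
          ext a
          simp only [mem_union, mem_insert]
          tauto
        have e2 : insert p S ∪ {q} = insert p (insert q S) := by
          ext a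
          simp only [mem_union, mem_insert, mem_singleton]
          tauto
        have e3 : S ∪ {q} = insert q S := by
          ext a
          simp only [mem_union, mem_insert, mem_singleton]
          tauto
        rw [e1, e2] at i1
        rw [e3]
        refine cancel_aux (V_nonneg M z hz _ _ _) (V_nonneg M z hz N (insert p S) ∅) (V_nonneg M z hz _ _ _)
          (V_nonneg M z hz _ _ _) ?_ (V_nonneg M z hz _ _ _) i1 i2
        refine V_mono M z hz _ _ _ _ ?_
        intro a ha
        simp only [mem_union, mem_insert, mem_singleton] at ha ⊢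
        tauto

/-- Negative inclusion correlation for sets which are disjoint outside `S`. -/
theorem nc_sets {M : Matroid E} {z : E → ℝ} (hz : ∀ a, 0 < z a) {N : Finset E} (h : NC M z N)
    (P : Finset E) (hP : P ⊆ N) (Q : Finset E) : ∀ S : Finset E, S ⊆ N → Q ⊆ N → P ∩ Q ⊆ S →
    V M z N (S ∪ P ∪ Q) ∅ * V M z N S ∅ ≤ V M z N (S ∪ P) ∅ * V M z N (S ∪ Q) ∅ := by
  induction Q using Finset.induction_on with
  | empty =>
    intro S hS _ _
    rw [union_empty, union_empty]
  | insert q Q hqQ ih =>
    intro S hS hQ hPQ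
    have hQN : Q ⊆ N := (subset_insert _ _).trans hQ
    have hqN : q ∈ N := hQ (mem_insert_self _ _)
    have i1 := ih (insert q S) (insert_subset hqN hS) hQN (by
      intro a ha
      rw [mem_inter] at ha
      exact mem_insert_of_mem (hPQ (mem_inter.mpr ⟨ha.1, mem_insert_of_mem ha.2⟩)))
    have i2 := nc_one hz h q hqN P S hS hP (fun h1 => hPQ (mem_inter.mpr ⟨h1, mem_insert_self _ _⟩))
    have e1 : insert q S ∪ P ∪ Q = S ∪ P ∪ insert q Q := by
      ext a
      simp only [mem_union, mem_insert]
      tauto
    have e2 : insert q S ∪ P = S ∪ P ∪ {q} := by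
      ext a
      simp only [mem_union, mem_insert, mem_singleton]
      tauto
    have e3 : insert q S ∪ Q = S ∪ insert q Q := by
      ext a
      simp only [mem_union, mem_insert]
      tauto
    have e4 : S ∪ {q} = insert q S := by
      ext a
      simp only [mem_union, mem_insert, mem_singleton]
      tauto
    rw [e1, e2, e3] at i1
    rw [e4] at i2
    rw [mul_comm (V M z N (S ∪ P) ∅)]
    refine cancel_aux (B := V M z N (insert q S) ∅) (D := V M z N (S ∪ P ∪ {q}) ∅) (V_nonneg M z hz _ _ _)
      (V_nonneg M z hz _ _ _) (V_nonneg M z hz _ _ _) (V_nonneg M z hz _ _ _) ?_ (V_nonneg M z hz _ _ _)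
      ?_ ?_
    · refine V_mono M z hz _ _ _ _ ?_
      intro a ha
      simp only [mem_union, mem_insert] at ha ⊢
      tauto
    · rw [mul_comm (V M z N (S ∪ insert q Q) ∅)]
      exact i1
    · rw [mul_comm (V M z N (insert q S) ∅)]
      exact i2

end Pool.Agent.Lib.MP_16c009_co_sw
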