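import Pool.Agent.Lib.MP_16c009_co_sw.Step

/-!
# Final statements
-/

set_option autoImplicit false

open Classical

namespace Pool.Agent.Lib.MP_16c009_co_sw

open Finset

variable {E : Type*} [Fintype E] [DecidableEq E]

theorem V_univ (M : Matroid E) (z : E → ℝ) (S : Finset E) :
    V M z univ S ∅ = ∑ A ∈ (univ : Finset (Finset E)).filter
      (fun A : Finset E => M.Indep (A : Set E) ∧ S ⊆ A), ∏ a ∈ A, z a := by
  unfold V
  refine Finset.sum_congr ?_ fun _ _ => rfl
  ext A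
  simp only [mem_filter, mem_powerset, subset_univ, true_and, mem_univ, union_empty]
  tauto

/-- the inequality for a pair -/
theorem pair_ineq {M : Matroid E} (hE : M.E = Set.univ) {z : E → ℝ} (hz : ∀ a, 0 < z a) {e f : E}
    (hef : e ≠ f) (hD : Coc M z ((univ.erase e).erase f)) :
    V M z univ {e, f} ∅ * V M z univ ∅ ∅ ≤ V M z univ {e} ∅ * V M z univ {f} ∅ := by
  have hfe : f ∈ univ.erase e := mem_erase.mpr ⟨hef.symm, mem_univ _⟩
  have hN1 : insert e (insert f ((univ.erase e).erase f)) = (univ : Finset E) := by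
    rw [insert_erase hfe, insert_erase (mem_univ e)]
  have heN : e ∉ (univ.erase e).erase f := by
    rw [mem_erase, mem_erase]
    tauto
  have hfN : f ∉ (univ.erase e).erase f := by
    rw [mem_erase]
    tauto
  have hNC := nc_all hE hz _ _ rfl hD
  have hk := key_ineq hE hz hD hNC (empty_subset _) hef heN hfN
  have h := step_alg hz hef heN hfN (empty_subset _) hk
  rw [hN1] at h
  exact h

/-- the inequality for disjoint sets -/
theorem sets_ineq {M : Matroid E} (hE : M.E = Set.univ) {z : E → ℝ} (hz : ∀ a, 0 < z a)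
    (hD : Coc M z univ) {P Q : Finset E} (hPQ : Disjoint P Q) :
    V M z univ (P ∪ Q) ∅ * V M z univ ∅ ∅ ≤ V M z univ P ∅ * V M z univ Q ∅ := by
  have h := nc_sets hz (nc_all hE hz _ _ rfl hD) P (subset_univ _) Q ∅ (empty_subset _) (subset_univ _)
    (by rw [disjoint_iff_inter_eq_empty.mp hPQ])
  rw [empty_union, empty_union] at h
  exact h

theorem span_compl {M : Matroid E} (hE : M.E = Set.univ) (A : Finset E) :
    M.Spanning (A : Set E) ↔ M✶.Indep ((Aᶜ : Finset E) : Set E) := by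
  have h1 : (A : Set E) ⊆ M.E := by rw [hE]; exact Set.subset_univ _
  rw [Matroid.spanning_iff_exists_isBase_subset, Matroid.dual_indep_iff_exists']
  constructor
  · rintro ⟨B, hB, hBA⟩
    refine ⟨by rw [hE]; exact Set.subset_univ _, B, hB, ?_⟩
    rw [Set.disjoint_left]
    intro a ha haB
    rw [mem_coe, mem_compl] at ha
    exact ha (by exact_mod_cast hBA haB)
  · rintro ⟨-, B, hB, hdis⟩
    refine ⟨B, hB, fun a ha => ?_⟩
    by_contra h2
    rw [Set.disjoint_left] at hdis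
    exact hdis (by rw [mem_coe, mem_compl]; exact fun h3 => h2 (by exact_mod_cast h3)) ha

/-- sums over spanning sets as sums over independent sets of the dual -/
theorem span_sum {M : Matroid E} (hE : M.E = Set.univ) {z : E → ℝ} (hz : ∀ a, 0 < z a) (r : Finset E → Prop) :
    ∑ A ∈ (univ : Finset (Finset E)).filter (fun A : Finset E => M.Spanning (A : Set E) ∧ r A), ∏ a ∈ A, z a =
      (∏ a, z a) * ∑ B ∈ (univ : Finset (Finset E)).filter
        (fun B : Finset E => M✶.Indep (B : Set E) ∧ r Bᶜ), ∏ a ∈ B, (z a)⁻¹ := by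
  rw [Finset.mul_sum]
  refine Finset.sum_nbij' (fun A => Aᶜ) (fun B => Bᶜ) ?_ ?_ ?_ ?_ ?_
  · intro A hA
    rw [mem_filter] at hA ⊢
    refine ⟨mem_univ _, (span_compl hE A).mp hA.2.1, ?_⟩
    rw [compl_compl]
    exact hA.2.2
  · intro B hB
    rw [mem_filter] at hB ⊢
    refine ⟨mem_univ _, (span_compl hE _).mpr ?_, hB.2.2⟩
    rw [compl_compl]
    exact hB.2.1
  · intro A _
    exact compl_compl A
  · intro B _
    exact compl_compl B
  · intro A _
    rw [← Finset.prod_mul_prod_compl A z, mul_assoc, ← Finset.prod_mul_distrib]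
    rw [Finset.prod_congr rfl fun a _ => mul_inv_cancel₀ (hz a).ne', Finset.prod_const_one, mul_one]

omit [DecidableEq E] in
theorem sum_iff (F : Finset E → ℝ) {p q : Finset E → Prop} {d1 : DecidablePred p} {d2 : DecidablePred q}
    (h : ∀ A, p A ↔ q A) :
    ∑ B ∈ (univ : Finset (Finset E)).filter p, F B = ∑ B ∈ (univ : Finset (Finset E)).filter q, F B := by
  refine Finset.sum_congr ?_ fun _ _ => rfl
  ext A
  rw [mem_filter, mem_filter, h A]

theorem filt_split (F : Finset E → ℝ) (p : Finset E → Prop) (x : E) {d1 : DecidablePred p}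
    {d2 : DecidablePred fun B => p B ∧ x ∉ B} {d3 : DecidablePred fun B => p B ∧ x ∈ B} :
    ∑ B ∈ (univ : Finset (Finset E)).filter (fun B => p B ∧ x ∉ B), F B =
      ∑ B ∈ (univ : Finset (Finset E)).filter (fun B => p B), F B -
        ∑ B ∈ (univ : Finset (Finset E)).filter (fun B => p B ∧ x ∈ B), F B := by
  have h1 : ∑ B ∈ (univ : Finset (Finset E)).filter (fun B => p B ∧ x ∉ B), F B =
      ∑ B ∈ ((univ : Finset (Finset E)).filter (fun B => p B)).filter (fun B => ¬ x ∈ B), F B := by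
    refine Finset.sum_congr ?_ fun _ _ => rfl
    ext A
    simp only [mem_filter, mem_univ, true_and]
  have h2 : ∑ B ∈ (univ : Finset (Finset E)).filter (fun B => p B ∧ x ∈ B), F B =
      ∑ B ∈ ((univ : Finset (Finset E)).filter (fun B => p B)).filter (fun B => x ∈ B), F B := by
    refine Finset.sum_congr ?_ fun _ _ => rfl
    ext A
    simp only [mem_filter, mem_univ, true_and]
  rw [eq_sub_iff_add_eq, add_comm, h1, h2, Finset.sum_filter_add_sum_filter_not]

/-- the inequality for the spanning sets and a pair -/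
theorem span_ineq {M : Matroid E} (hE : M.E = Set.univ) {z : E → ℝ} (hz : ∀ a, 0 < z a) {e f : E}
    (hef : e ≠ f) (hD : Coc M✶ (fun a => (z a)⁻¹) ((univ.erase e).erase f)) :
    (∑ A ∈ (univ : Finset (Finset E)).filter
          (fun A : Finset E => M.Spanning (A : Set E) ∧ e ∈ A ∧ f ∈ A), ∏ a ∈ A, z a) *
      (∑ A ∈ (univ : Finset (Finset E)).filter
          (fun A : Finset E => M.Spanning (A : Set E)), ∏ a ∈ A, z a) ≤
    (∑ A ∈ (univ : Finset (Finset E)).filter
          (fun A : Finset E => M.Spanning (A : Set E) ∧ e ∈ A), ∏ a ∈ A, z a) *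
      (∑ A ∈ (univ : Finset (Finset E)).filter
          (fun A : Finset E => M.Spanning (A : Set E) ∧ f ∈ A), ∏ a ∈ A, z a) := by
  have h := pair_ineq (M := M✶) (by rw [Matroid.dual_ground]; exact hE)
    (z := fun a => (z a)⁻¹) (fun a => inv_pos.mpr (hz a)) hef hD
  rw [V_univ, V_univ, V_univ, V_univ] at h
  obtain ⟨i, hi⟩ : ∃ i, ∑ B ∈ (univ : Finset (Finset E)).filter
    (fun B : Finset E => M✶.Indep (B : Set E)), ∏ a ∈ B, (z a)⁻¹ = i := ⟨_, rfl⟩
  obtain ⟨ie, hie⟩ : ∃ ie, ∑ B ∈ (univ : Finset (Finset E)).filter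
    (fun B : Finset E => M✶.Indep (B : Set E) ∧ e ∈ B), ∏ a ∈ B, (z a)⁻¹ = ie := ⟨_, rfl⟩
  obtain ⟨jf, hjf⟩ : ∃ jf, ∑ B ∈ (univ : Finset (Finset E)).filter
    (fun B : Finset E => M✶.Indep (B : Set E) ∧ f ∈ B), ∏ a ∈ B, (z a)⁻¹ = jf := ⟨_, rfl⟩
  obtain ⟨ief, hief⟩ : ∃ ief, ∑ B ∈ (univ : Finset (Finset E)).filter
    (fun B : Finset E => M✶.Indep (B : Set E) ∧ e ∈ B ∧ f ∈ B), ∏ a ∈ B, (z a)⁻¹ = ief := ⟨_, rfl⟩
  have v0 := (sum_iff (fun B => ∏ a ∈ B, (z a)⁻¹)
    (p := fun B : Finset E => M✶.Indep (B : Set E) ∧ (∅ : Finset E) ⊆ B)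
    (q := fun B : Finset E => M✶.Indep (B : Set E))
    (d1 := inferInstance) (d2 := inferInstance) (fun A => by simp)).trans hi
  have v1 := (sum_iff (fun B => ∏ a ∈ B, (z a)⁻¹)
    (p := fun B : Finset E => M✶.Indep (B : Set E) ∧ {e} ⊆ B)
    (q := fun B : Finset E => M✶.Indep (B : Set E) ∧ e ∈ B)
    (d1 := inferInstance) (d2 := inferInstance) (fun A => by simp)).trans hie
  have v2 := (sum_iff (fun B => ∏ a ∈ B, (z a)⁻¹)
    (p := fun B : Finset E => M✶.Indep (B : Set E) ∧ {f} ⊆ B)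
    (q := fun B : Finset E => M✶.Indep (B : Set E) ∧ f ∈ B)
    (d1 := inferInstance) (d2 := inferInstance) (fun A => by simp)).trans hjf
  have v3 := (sum_iff (fun B => ∏ a ∈ B, (z a)⁻¹)
    (p := fun B : Finset E => M✶.Indep (B : Set E) ∧ {e, f} ⊆ B)
    (q := fun B : Finset E => M✶.Indep (B : Set E) ∧ e ∈ B ∧ f ∈ B)
    (d1 := inferInstance) (d2 := inferInstance) (fun A => by simp [insert_subset_iff])).trans hief
  have h' : ief * i ≤ ie * jf := by
    have q0 : ∑ B ∈ (univ : Finset (Finset E)).filter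
      (fun B : Finset E => M✶.Indep (B : Set E) ∧ (∅ : Finset E) ⊆ B), ∏ a ∈ B, (z a)⁻¹ = i := v0
    have q1 : ∑ B ∈ (univ : Finset (Finset E)).filter
      (fun B : Finset E => M✶.Indep (B : Set E) ∧ {e} ⊆ B), ∏ a ∈ B, (z a)⁻¹ = ie := v1
    have q2 : ∑ B ∈ (univ : Finset (Finset E)).filter
      (fun B : Finset E => M✶.Indep (B : Set E) ∧ {f} ⊆ B), ∏ a ∈ B, (z a)⁻¹ = jf := v2
    have q3 : ∑ B ∈ (univ : Finset (Finset E)).filter
      (fun B : Finset E => M✶.Indep (B : Set E) ∧ {e, f} ⊆ B), ∏ a ∈ B, (z a)⁻¹ = ief := v3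
    rw [← q0, ← q1, ← q2, ← q3]
    exact h
  have m1 : ∑ B ∈ (univ : Finset (Finset E)).filter
      (fun B : Finset E => M✶.Indep (B : Set E) ∧ e ∉ B), ∏ a ∈ B, (z a)⁻¹ = i - ie := by
    rw [← hi, ← hie]
    exact filt_split _ _ e
  have m2 : ∑ B ∈ (univ : Finset (Finset E)).filter
      (fun B : Finset E => M✶.Indep (B : Set E) ∧ f ∉ B), ∏ a ∈ B, (z a)⁻¹ = i - jf := by
    rw [← hi, ← hjf]
    exact filt_split _ _ f
  have m3 : ∑ B ∈ (univ : Finset (Finset E)).filter
      (fun B : Finset E => (M✶.Indep (B : Set E) ∧ f ∈ B) ∧ e ∉ B), ∏ a ∈ B, (z a)⁻¹ = jf - ief := by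
    have x3 : ∑ B ∈ (univ : Finset (Finset E)).filter
        (fun B : Finset E => (M✶.Indep (B : Set E) ∧ f ∈ B) ∧ e ∈ B), ∏ a ∈ B, (z a)⁻¹ = ief := by
      rw [← hief]
      exact sum_iff _ fun A => by tauto
    rw [← hjf, ← x3]
    exact filt_split _ _ e
  have m4 : ∑ B ∈ (univ : Finset (Finset E)).filter
      (fun B : Finset E => (M✶.Indep (B : Set E) ∧ e ∉ B) ∧ f ∉ B), ∏ a ∈ B, (z a)⁻¹ =
        (i - ie) - (jf - ief) := by
    have x4 : ∑ B ∈ (univ : Finset (Finset E)).filter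
        (fun B : Finset E => (M✶.Indep (B : Set E) ∧ e ∉ B) ∧ f ∈ B), ∏ a ∈ B, (z a)⁻¹ = jf - ief := by
      rw [← m3]
      exact sum_iff _ fun A => by tauto
    rw [← m1, ← x4]
    exact filt_split _ _ f
  have s1 : ∑ A ∈ (univ : Finset (Finset E)).filter
          (fun A : Finset E => M.Spanning (A : Set E) ∧ e ∈ A ∧ f ∈ A), ∏ a ∈ A, z a =
      (∏ a, z a) * ((i - ie) - (jf - ief)) := by
    rw [← m4]
    refine (sum_iff _ fun A => Iff.rfl).trans ((span_sum hE hz (fun A => e ∈ A ∧ f ∈ A)).trans ?_)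
    refine congrArg (fun t => (∏ a, z a) * t) (sum_iff _ fun A => ?_)
    rw [mem_compl, mem_compl]
    tauto
  have s2 : ∑ A ∈ (univ : Finset (Finset E)).filter
          (fun A : Finset E => M.Spanning (A : Set E)), ∏ a ∈ A, z a = (∏ a, z a) * i := by
    rw [← hi]
    refine (sum_iff _ fun A => ?_).trans ((span_sum hE hz (fun _ => True)).trans ?_)
    · rw [and_true]
    · refine congrArg (fun t => (∏ a, z a) * t) (sum_iff _ fun A => ?_)
      rw [and_true]
  have s3 : ∑ A ∈ (univ : Finset (Finset E)).filter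
          (fun A : Finset E => M.Spanning (A : Set E) ∧ e ∈ A), ∏ a ∈ A, z a =
      (∏ a, z a) * (i - ie) := by
    rw [← m1]
    refine (sum_iff _ fun A => Iff.rfl).trans ((span_sum hE hz (fun A => e ∈ A)).trans ?_)
    refine congrArg (fun t => (∏ a, z a) * t) (sum_iff _ fun A => ?_)
    rw [mem_compl]
  have s4 : ∑ A ∈ (univ : Finset (Finset E)).filter
          (fun A : Finset E => M.Spanning (A : Set E) ∧ f ∈ A), ∏ a ∈ A, z a =
      (∏ a, z a) * (i - jf) := by
    rw [← m2]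
    refine (sum_iff _ fun A => Iff.rfl).trans ((span_sum hE hz (fun A => f ∈ A)).trans ?_)
    refine congrArg (fun t => (∏ a, z a) * t) (sum_iff _ fun A => ?_)
    rw [mem_compl]
  rw [s1, s2, s3, s4]
  have hZ : 0 ≤ (∏ a, z a) * (∏ a, z a) := mul_self_nonneg _
  nlinarith [mul_le_mul_of_nonneg_left h' hZ]

end Pool.Agent.Lib.MP_16c009_co_sw
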