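import Pool.Agent.Lib.MP_16c009_co_sw.Final

/-!
# The conditions in terms of cocircuits and circuits
-/

set_option autoImplicit false

open Classical

namespace Pool.Agent.Lib.MP_16c009_co_sw

open Finset

variable {E : Type*} [Fintype E] [DecidableEq E]

theorem coc_pair {M : Matroid E} {z : E → ℝ} {e f : E}
    (h : ∀ D : Finset E, M.IsCocircuit (D : Set E) → ∀ p ∈ D, ∀ q ∈ D, p ≠ q →
        ∑ a ∈ D \ {e, f, p, q}, z a ≤ 1) : Coc M z ((univ.erase e).erase f) := by
  intro D hD p hp q hq hpq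
  refine le_trans (le_of_eq ?_) (h D hD p hp q hq hpq)
  refine Finset.sum_congr ?_ fun _ _ => rfl
  ext a
  simp only [mem_erase, mem_inter, mem_sdiff, mem_insert, mem_singleton, mem_univ]
  tauto

theorem coc_univ {M : Matroid E} {z : E → ℝ}
    (h : ∀ D : Finset E, M.IsCocircuit (D : Set E) → ∀ p ∈ D, ∀ q ∈ D, p ≠ q →
        ∑ a ∈ D \ {p, q}, z a ≤ 1) : Coc M z univ := by
  intro D hD p hp q hq hpq
  refine le_trans (le_of_eq ?_) (h D hD p hp q hq hpq)
  refine Finset.sum_congr ?_ fun _ _ => rfl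
  ext a
  simp only [mem_erase, mem_inter, mem_sdiff, mem_insert, mem_singleton, mem_univ]
  tauto

theorem part_one {M : Matroid E} (hE : M.E = Set.univ) {z : E → ℝ} (hz : ∀ a, 0 < z a) {e f : E}
    (hef : e ≠ f)
    (h : ∀ D : Finset E, M.IsCocircuit (D : Set E) → ∀ p ∈ D, ∀ q ∈ D, p ≠ q →
        ∑ a ∈ D \ {e, f, p, q}, z a ≤ 1) :
    (∑ A ∈ (Finset.univ : Finset (Finset E)).filter
          (fun A : Finset E => M.Indep (A : Set E) ∧ e ∈ A ∧ f ∈ A), ∏ a ∈ A, z a) *
      (∑ A ∈ (Finset.univ : Finset (Finset E)).filter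
          (fun A : Finset E => M.Indep (A : Set E)), ∏ a ∈ A, z a) ≤
      (∑ A ∈ (Finset.univ : Finset (Finset E)).filter
          (fun A : Finset E => M.Indep (A : Set E) ∧ e ∈ A), ∏ a ∈ A, z a) *
      (∑ A ∈ (Finset.univ : Finset (Finset E)).filter
          (fun A : Finset E => M.Indep (A : Set E) ∧ f ∈ A), ∏ a ∈ A, z a) := by
  have h0 := pair_ineq hE hz hef (coc_pair h)
  rw [V_univ, V_univ, V_univ, V_univ] at h0
  refine le_trans (le_of_eq ?_) (h0.trans (le_of_eq ?_))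
  · refine congrArg₂ (· * ·) (sum_iff _ fun A => ?_) (sum_iff _ fun A => ?_)
    · rw [insert_subset_iff, singleton_subset_iff]
    · simp
  · refine congrArg₂ (· * ·) (sum_iff _ fun A => ?_) (sum_iff _ fun A => ?_)
    · rw [singleton_subset_iff]
    · rw [singleton_subset_iff]

omit [Fintype E] [DecidableEq E] in
theorem dual_coc {M : Matroid E} (D : Finset E) (h : M✶.IsCocircuit (D : Set E)) :
    M.IsCircuit (D : Set E) := by
  rw [Matroid.isCocircuit_def, Matroid.dual_dual] at h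
  exact h

theorem part_two {M : Matroid E} (hE : M.E = Set.univ) {z : E → ℝ} (hz : ∀ a, 0 < z a) {e f : E}
    (hef : e ≠ f)
    (h : ∀ D : Finset E, M.IsCircuit (D : Set E) → ∀ p ∈ D, ∀ q ∈ D, p ≠ q →
        ∑ a ∈ D \ {e, f, p, q}, 1 / z a ≤ 1) :
    (∑ A ∈ (Finset.univ : Finset (Finset E)).filter
          (fun A : Finset E => M.Spanning (A : Set E) ∧ e ∈ A ∧ f ∈ A), ∏ a ∈ A, z a) *
      (∑ A ∈ (Finset.univ : Finset (Finset E)).filter
          (fun A : Finset E => M.Spanning (A : Set E)), ∏ a ∈ A, z a) ≤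
      (∑ A ∈ (Finset.univ : Finset (Finset E)).filter
          (fun A : Finset E => M.Spanning (A : Set E) ∧ e ∈ A), ∏ a ∈ A, z a) *
      (∑ A ∈ (Finset.univ : Finset (Finset E)).filter
          (fun A : Finset E => M.Spanning (A : Set E) ∧ f ∈ A), ∏ a ∈ A, z a) := by
  refine span_ineq hE hz hef (coc_pair fun D hD p hp q hq hpq => ?_)
  refine le_trans (le_of_eq ?_) (h D (dual_coc D hD) p hp q hq hpq)
  refine Finset.sum_congr rfl fun a _ => ?_
  rw [one_div]

theorem part_three {M : Matroid E} (hE : M.E = Set.univ) {z : E → ℝ} (hz : ∀ a, 0 < z a)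
    (h : ∀ D : Finset E, M.IsCocircuit (D : Set E) → ∀ p ∈ D, ∀ q ∈ D, p ≠ q →
        ∑ a ∈ D \ {p, q}, z a ≤ 1) (P Q : Finset E) (hPQ : Disjoint P Q) :
    (∑ A ∈ (Finset.univ : Finset (Finset E)).filter
          (fun A : Finset E => M.Indep (A : Set E) ∧ P ∪ Q ⊆ A), ∏ a ∈ A, z a) *
      (∑ A ∈ (Finset.univ : Finset (Finset E)).filter
          (fun A : Finset E => M.Indep (A : Set E)), ∏ a ∈ A, z a) ≤
      (∑ A ∈ (Finset.univ : Finset (Finset E)).filter
          (fun A : Finset E => M.Indep (A : Set E) ∧ P ⊆ A), ∏ a ∈ A, z a) *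
      (∑ A ∈ (Finset.univ : Finset (Finset E)).filter
          (fun A : Finset E => M.Indep (A : Set E) ∧ Q ⊆ A), ∏ a ∈ A, z a) := by
  have h0 := sets_ineq hE hz (coc_univ h) hPQ
  rw [V_univ, V_univ, V_univ, V_univ] at h0
  refine le_trans (le_of_eq ?_) (h0.trans (le_of_eq ?_))
  · refine congrArg₂ (· * ·) (sum_iff _ fun A => Iff.rfl) (sum_iff _ fun A => ?_)
    simp
  · exact congrArg₂ (· * ·) (sum_iff _ fun A => Iff.rfl) (sum_iff _ fun A => Iff.rfl)

theorem span_avoid {M : Matroid E} (hE : M.E = Set.univ) {z : E → ℝ} (hz : ∀ a, 0 < z a)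
    (P : Finset E) :
    ∑ A ∈ (Finset.univ : Finset (Finset E)).filter
          (fun A : Finset E => M.Spanning (A : Set E) ∧ Disjoint P A), ∏ a ∈ A, z a =
      (∏ a, z a) * ∑ A ∈ (Finset.univ : Finset (Finset E)).filter
          (fun A : Finset E => M✶.Indep (A : Set E) ∧ P ⊆ A), ∏ a ∈ A, (z a)⁻¹ := by
  refine (sum_iff _ fun A => Iff.rfl).trans ((span_sum hE hz (fun A => Disjoint P A)).trans ?_)
  refine congrArg (fun t => (∏ a, z a) * t) (sum_iff _ fun A => ?_)
  rw [show Disjoint P Aᶜ ↔ P ⊆ A from disjoint_compl_right_iff]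

theorem span_all {M : Matroid E} (hE : M.E = Set.univ) {z : E → ℝ} (hz : ∀ a, 0 < z a) :
    ∑ A ∈ (Finset.univ : Finset (Finset E)).filter
          (fun A : Finset E => M.Spanning (A : Set E)), ∏ a ∈ A, z a =
      (∏ a, z a) * ∑ A ∈ (Finset.univ : Finset (Finset E)).filter
          (fun A : Finset E => M✶.Indep (A : Set E)), ∏ a ∈ A, (z a)⁻¹ := by
  refine (sum_iff _ fun A => ?_).trans ((span_sum hE hz (fun _ => True)).trans ?_)
  · rw [and_true]
  · refine congrArg (fun t => (∏ a, z a) * t) (sum_iff _ fun A => ?_)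
    rw [and_true]

theorem part_four {M : Matroid E} (hE : M.E = Set.univ) {z : E → ℝ} (hz : ∀ a, 0 < z a)
    (h : ∀ D : Finset E, M.IsCircuit (D : Set E) → ∀ p ∈ D, ∀ q ∈ D, p ≠ q →
        ∑ a ∈ D \ {p, q}, 1 / z a ≤ 1) (P Q : Finset E) (hPQ : Disjoint P Q) :
    (∑ A ∈ (Finset.univ : Finset (Finset E)).filter
          (fun A : Finset E => M.Spanning (A : Set E) ∧ Disjoint (P ∪ Q) A), ∏ a ∈ A, z a) *
      (∑ A ∈ (Finset.univ : Finset (Finset E)).filter
          (fun A : Finset E => M.Spanning (A : Set E)), ∏ a ∈ A, z a) ≤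
      (∑ A ∈ (Finset.univ : Finset (Finset E)).filter
          (fun A : Finset E => M.Spanning (A : Set E) ∧ Disjoint P A), ∏ a ∈ A, z a) *
      (∑ A ∈ (Finset.univ : Finset (Finset E)).filter
          (fun A : Finset E => M.Spanning (A : Set E) ∧ Disjoint Q A), ∏ a ∈ A, z a) := by
  have h' := part_three (M := M✶) (by rw [Matroid.dual_ground]; exact hE)
    (z := fun a => (z a)⁻¹) (fun a => inv_pos.mpr (hz a)) (fun D hD p hp q hq hpq => by
      refine le_trans (le_of_eq ?_) (h D (dual_coc D hD) p hp q hq hpq)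
      refine Finset.sum_congr rfl fun a _ => ?_
      rw [one_div]) P Q hPQ
  rw [span_avoid hE hz, span_avoid hE hz, span_avoid hE hz, span_all hE hz]
  have hZ : 0 ≤ (∏ a, z a) * (∏ a, z a) := mul_self_nonneg _
  nlinarith [mul_le_mul_of_nonneg_left h' hZ]

end Pool.Agent.Lib.MP_16c009_co_sw
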