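import Pool.Agent.Lib.MP_16c009_co_sw.Basic

/-!
# The main inequality
-/

set_option autoImplicit false

open Classical

namespace Pool.Agent.Lib.MP_16c009_co_sw

open Finset

variable {E : Type*} [DecidableEq E]

/-- independence of a finite set -/
def Ind (M : Matroid E) (A : Finset E) : Prop := M.Indep (A : Set E)

theorem Ind.mono {M : Matroid E} {A B : Finset E} (h : Ind M B) (hAB : A ⊆ B) : Ind M A :=
  Matroid.Indep.subset h (by exact_mod_cast hAB)

theorem circ_exists {M : Matroid E} (hE : M.E = Set.univ) {X : Finset E} {e : E} (hX : Ind M X)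
    (hd : ¬ Ind M (insert e X)) : ∃ P : Finset E, P ⊆ X ∧ e ∉ P ∧ M.IsCircuit ((insert e P : Finset E) : Set E) := by
  have hdep : M.Dep ((insert e X : Finset E) : Set E) := by
    rw [Matroid.dep_iff]
    refine ⟨hd, ?_⟩
    rw [hE]
    exact Set.subset_univ _
  obtain ⟨C, hC, hCc⟩ := hdep.exists_isCircuit_subset
  have heC : e ∈ C := by
    by_contra he
    refine hCc.not_indep (Matroid.Indep.subset hX ?_)
    intro a ha
    have h1 := hC ha
    rw [Finset.mem_coe, Finset.mem_insert] at h1
    rcases h1 with h1 | h1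
    · exact absurd (h1 ▸ ha) he
    · exact h1
  refine ⟨(X.filter fun a => a ∈ C).erase e, ?_, Finset.notMem_erase _ _, ?_⟩
  · intro a ha
    exact (Finset.mem_filter.mp (Finset.mem_of_mem_erase ha)).1
  · have h1 : (((insert e ((X.filter fun a => a ∈ C).erase e) : Finset E)) : Set E) = C := by
      ext a
      simp only [Finset.coe_insert, Finset.coe_erase, Finset.coe_filter, Set.mem_insert_iff, Set.mem_sdiff,
        Set.mem_setOf_eq, Set.mem_singleton_iff]
      constructor
      · rintro (h2 | h2)
        · rw [h2]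
          exact heC
        · exact h2.1.2
      · intro h2
        by_cases h3 : a = e
        · exact Or.inl h3
        · have h4 := hC h2
          rw [Finset.mem_coe, Finset.mem_insert] at h4
          rcases h4 with h4 | h4
          · exact Or.inl h4
          · exact Or.inr ⟨⟨h4, h2⟩, h3⟩
    rw [h1]
    exact hCc

theorem circ_unique {M : Matroid E} {X P P' : Finset E} {e : E} (hX : Ind M X) (heP : e ∉ P) (heP' : e ∉ P')
    (hP : P ⊆ X) (hP' : P' ⊆ X) (h : M.IsCircuit ((insert e P : Finset E) : Set E))
    (h' : M.IsCircuit ((insert e P' : Finset E) : Set E)) : P = P' := by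
  have h1 := h.eq_fundCircuit_of_subset hX (by
    rw [Finset.coe_insert]
    exact Set.insert_subset_insert (by exact_mod_cast hP))
  have h2 := h'.eq_fundCircuit_of_subset hX (by
    rw [Finset.coe_insert]
    exact Set.insert_subset_insert (by exact_mod_cast hP'))
  have h3 : (insert e P : Finset E) = insert e P' := by
    have h4 : ((insert e P : Finset E) : Set E) = ((insert e P' : Finset E) : Set E) := h1.trans h2.symm
    exact_mod_cast h4
  calc P = (insert e P).erase e := (Finset.erase_insert heP).symm
    _ = (insert e P').erase e := by rw [h3]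
    _ = P' := Finset.erase_insert heP'

theorem not_ind_of_circ {M : Matroid E} {X P : Finset E} {e : E} (hP : P ⊆ X)
    (h : M.IsCircuit ((insert e P : Finset E) : Set E)) : ¬ Ind M (insert e X) := by
  intro h1
  exact h.not_indep (Matroid.Indep.subset h1 (by exact_mod_cast Finset.insert_subset_insert e hP))

/-- removing an element of the circuit makes the set independent -/
theorem ind_erase {M : Matroid E} (hE : M.E = Set.univ) {X P : Finset E} {e x : E} (hX : Ind M X) (heX : e ∉ X)
    (hP : P ⊆ X) (h : M.IsCircuit ((insert e P : Finset E) : Set E)) (hx : x ∈ P) :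
    Ind M (insert e (X.erase x)) := by
  by_contra hd
  obtain ⟨P', hP', heP', hc⟩ := circ_exists hE (hX.mono (Finset.erase_subset x X)) hd
  have h1 : P = P' := circ_unique hX (fun h2 => heX (hP h2)) heP' hP (hP'.trans (Finset.erase_subset x X)) h hc
  rw [h1] at hx
  exact Finset.notMem_erase x X (hP' hx)

/-- if `X` spans `e` and `f`, and `X - x` spans neither, then `e` and `f` are parallel modulo `X - x` -/
theorem ind_par {M : Matroid E} {X : Finset E} {e f x : E} (hX : Ind M X) (hx : x ∈ X) (hef : e ≠ f)
    (heX : e ∉ X) (hfX : f ∉ X)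
    (he : ¬ Ind M (insert e X)) (hf : ¬ Ind M (insert f X)) :
    ¬ Ind M (insert e (insert f (X.erase x))) := by
  intro h
  have hc : (X : Set E).encard < (((insert e (insert f (X.erase x)) : Finset E)) : Set E).encard := by
    rw [Set.encard_coe_eq_coe_finsetCard, Set.encard_coe_eq_coe_finsetCard]
    have h1 : f ∉ X.erase x := fun h2 => hfX (Finset.mem_of_mem_erase h2)
    have h2 : e ∉ insert f (X.erase x) := by
      rw [Finset.mem_insert]
      rintro (h3 | h3)
      · exact hef h3
      · exact heX (Finset.mem_of_mem_erase h3)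
    rw [Finset.card_insert_of_notMem h2, Finset.card_insert_of_notMem h1, Finset.card_erase_of_mem hx]
    have h3 : 0 < X.card := Finset.card_pos.mpr ⟨x, hx⟩
    exact_mod_cast (by omega : X.card < X.card - 1 + 1 + 1)
  obtain ⟨y, hy, hy'⟩ := Matroid.Indep.augment hX h hc
  rw [Set.mem_sdiff, Finset.mem_coe, Finset.mem_coe, Finset.mem_insert, Finset.mem_insert] at hy
  have h4 : Ind M (insert y X) := by
    unfold Ind
    rw [Finset.coe_insert]
    exact hy'
  rcases hy.1 with h5 | h5 | h5
  · exact he (h5 ▸ h4)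
  · exact hf (h5 ▸ h4)
  · exact hy.2 (Finset.mem_of_mem_erase h5)

/-- the cocircuit condition, for the weights of the elements of `N` -/
def Coc (M : Matroid E) (z : E → ℝ) (N : Finset E) : Prop :=
  ∀ D : Finset E, M.IsCocircuit (D : Set E) → ∀ e ∈ D, ∀ f ∈ D, e ≠ f →
    ∑ a ∈ ((D ∩ N).erase e).erase f, z a ≤ 1

theorem Coc.mono {M : Matroid E} {z : E → ℝ} (hz : ∀ a, 0 < z a) {N N' : Finset E} (h : Coc M z N)
    (hN : N' ⊆ N) : Coc M z N' := by
  intro D hD e he f hf hef
  refine le_trans (Finset.sum_le_sum_of_subset_of_nonneg ?_ fun a _ _ => (hz a).le) (h D hD e he f hf hef)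
  exact Finset.erase_subset_erase _ (Finset.erase_subset_erase _ (Finset.inter_subset_inter_left hN))

theorem par_bound [Fintype E] {M : Matroid E} (hE : M.E = Set.univ) {z : E → ℝ} (hz : ∀ a, 0 < z a)
    {N Y : Finset E} (hD : Coc M z N) {e f : E} (hef : e ≠ f) (heN : e ∉ N) (hfN : f ∉ N) (hY : Y ⊆ N)
    (he : Ind M (insert e Y)) (hf : Ind M (insert f Y)) (h : ¬ Ind M (insert e (insert f Y))) :
    ∑ x ∈ N.filter (fun x => x ∉ Y ∧ Ind M (insert x Y) ∧ ¬ Ind M (insert e (insert x Y))), z x ≤ 1 := by
  obtain ⟨K, hK, hKe⟩ := Matroid.Indep.exists_isCocircuit_inter_eq_mem (M := M) he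
    (show e ∈ (((insert e Y : Finset E)) : Set E) by exact_mod_cast Finset.mem_insert_self e Y)
  have heK : e ∈ K := by
    have : e ∈ K ∩ ((insert e Y : Finset E) : Set E) := by rw [hKe]; exact rfl
    exact this.1
  have hYK : ∀ y ∈ Y, y ∉ K := by
    intro y hy hyK
    have : y ∈ K ∩ ((insert e Y : Finset E) : Set E) := ⟨hyK, by exact_mod_cast Finset.mem_insert_of_mem hy⟩
    rw [hKe, Set.mem_singleton_iff] at this
    exact heN (hY (this ▸ hy))
  have key : ∀ x : E, Ind M (insert x Y) → ¬ Ind M (insert e (insert x Y)) → x ∈ K := by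
    intro x hx hd
    by_contra hxK
    obtain ⟨P, hP, heP, hc⟩ := circ_exists hE hx hd
    refine hc.inter_isCocircuit_ne_singleton hK (e := e) ?_
    ext a
    rw [Set.mem_inter_iff, Finset.mem_coe, Finset.mem_insert, Set.mem_singleton_iff]
    constructor
    · rintro ⟨h1 | h1, h2⟩
      · exact h1
      · rcases Finset.mem_insert.mp (hP h1) with h3 | h3
        · exact absurd (h3 ▸ h2) hxK
        · exact absurd h2 (hYK a h3)
    · intro h1
      rw [h1]
      exact ⟨Or.inl rfl, heK⟩
  have hfK : f ∈ K := key f hf h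
  have hD' := hD (Finset.univ.filter fun a => a ∈ K) (by
    have : (((Finset.univ.filter fun a => a ∈ K : Finset E)) : Set E) = K := by
      ext a
      simp
    rw [this]
    exact hK) e (by simp [heK]) f (by simp [hfK]) hef
  refine le_trans (Finset.sum_le_sum_of_subset_of_nonneg ?_ fun a _ _ => (hz a).le) hD'
  intro x hx
  rw [Finset.mem_filter] at hx
  rw [Finset.mem_erase, Finset.mem_erase, Finset.mem_inter, Finset.mem_filter]
  refine ⟨?_, ?_, ⟨Finset.mem_univ _, key x hx.2.2.1 hx.2.2.2⟩, hx.1⟩
  · rintro rfl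
    exact hfN hx.1
  · rintro rfl
    exact heN hx.1

end Pool.Agent.Lib.MP_16c009_co_sw
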