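import Pool.Agent.Lib.MP_16c009_co_sw.Main

/-!
# The induction step
-/

set_option autoImplicit false

open Classical

namespace Pool.Agent.Lib.MP_16c009_co_sw

open Finset

variable {E : Type*} [DecidableEq E]

/-- the independent sets between `S` and `N` -/
noncomputable def XX (M : Matroid E) (N S : Finset E) : Finset (Finset E) :=
  N.powerset.filter fun X => S ⊆ X ∧ Ind M X

/-- the circuits of `N ∪ {e}` through `e`, without `e` -/
noncomputable def PP (M : Matroid E) (N : Finset E) (e : E) : Finset (Finset E) :=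
  N.powerset.filter fun P => M.IsCircuit ((insert e P : Finset E) : Set E)

/-- indicator -/
noncomputable def ii (p : Prop) : ℝ := if p then 1 else 0

theorem ii_pos {p : Prop} (h : p) : ii p = 1 := if_pos h
theorem ii_neg {p : Prop} (h : ¬ p) : ii p = 0 := if_neg h
theorem ii_nonneg (p : Prop) : 0 ≤ ii p := by
  unfold ii
  split_ifs <;> norm_num

theorem V_eq_XX (M : Matroid E) (z : E → ℝ) (N S T : Finset E) :
    V M z N S T = ∑ X ∈ XX M N S, (∏ a ∈ X, z a) * ii (Ind M (X ∪ T)) := by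
  rw [V_eq_ite]
  unfold XX
  rw [Finset.sum_filter]
  refine Finset.sum_congr rfl fun X _ => ?_
  by_cases h : S ⊆ X ∧ Ind M X
  · rw [if_pos h]
    by_cases h2 : Ind M (X ∪ T)
    · rw [ii_pos h2, if_pos ⟨h.1, h2⟩, mul_one]
    · rw [ii_neg h2, if_neg (fun h3 => h2 h3.2), mul_zero]
  · rw [if_neg h, if_neg]
    intro h3
    exact h ⟨h3.1, Ind.mono (B := X ∪ T) h3.2 subset_union_left⟩

theorem V_union (M : Matroid E) (z : E → ℝ) (N S R : Finset E) :
    V M z N (S ∪ R) ∅ = ∑ X ∈ XX M N S, (∏ a ∈ X, z a) * ii (R ⊆ X) := by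
  rw [V_eq_ite]
  unfold XX
  rw [Finset.sum_filter]
  refine Finset.sum_congr rfl fun X _ => ?_
  rw [union_empty]
  by_cases h : S ⊆ X ∧ Ind M X
  · rw [if_pos h]
    by_cases h2 : R ⊆ X
    · rw [ii_pos h2, if_pos ⟨union_subset h.1 h2, h.2⟩, mul_one]
    · rw [ii_neg h2, if_neg (fun h3 => h2 (subset_union_right.trans h3.1)), mul_zero]
  · rw [if_neg h, if_neg]
    intro h3
    exact h ⟨subset_union_left.trans h3.1, h3.2⟩

theorem dep_sum {M : Matroid E} (hE : M.E = Set.univ) {N S X : Finset E} {e : E} (heN : e ∉ N)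
    (hX : X ∈ XX M N S) : ii (¬ Ind M (X ∪ {e})) = ∑ P ∈ PP M N e, ii (P ⊆ X) := by
  unfold XX at hX
  rw [mem_filter, mem_powerset] at hX
  have hu : X ∪ {e} = insert e X := by
    ext a
    simp only [mem_union, mem_singleton, mem_insert]
    tauto
  rw [hu]
  by_cases h : Ind M (insert e X)
  · rw [ii_neg (not_not.mpr h)]
    symm
    refine Finset.sum_eq_zero fun P hP => ii_neg fun hPX => ?_
    exact not_ind_of_circ hPX (mem_filter.mp hP).2 h
  · rw [ii_pos h]
    obtain ⟨P, hP, heP, hc⟩ := circ_exists hE hX.2.2 h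
    rw [Finset.sum_eq_single P]
    · rw [ii_pos hP]
    · intro P' hP' hne
      refine ii_neg fun hP'X => hne ?_
      unfold PP at hP'
      rw [mem_filter, mem_powerset] at hP'
      exact circ_unique hX.2.2 (fun h1 => heN (hP'.1 h1)) heP hP'X hP hP'.2 hc
    · intro h1
      exfalso
      apply h1
      unfold PP
      rw [mem_filter, mem_powerset]
      exact ⟨hP.trans hX.1, hc⟩

/-- the weight of the sets spanning `e` -/
theorem a_eq {M : Matroid E} (hE : M.E = Set.univ) (z : E → ℝ) {N S : Finset E} {e : E} (heN : e ∉ N) :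
    ∑ X ∈ XX M N S, (∏ a ∈ X, z a) * ii (¬ Ind M (X ∪ {e})) = ∑ P ∈ PP M N e, V M z N (S ∪ P) ∅ := by
  rw [Finset.sum_congr rfl fun X hX => by rw [dep_sum hE heN hX, Finset.mul_sum], Finset.sum_comm]
  exact Finset.sum_congr rfl fun P _ => (V_union M z N S P).symm

theorem ii_mul (p q : Prop) : ii p * ii q = ii (p ∧ q) := by
  by_cases hp : p
  · by_cases hq : q
    · rw [ii_pos hp, ii_pos hq, ii_pos ⟨hp, hq⟩, mul_one]
    · rw [ii_neg hq, ii_neg (fun h : p ∧ q => hq h.2), mul_zero]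
  · rw [ii_neg hp, ii_neg (fun h : p ∧ q => hp h.1), zero_mul]

theorem ab_eq {M : Matroid E} (hE : M.E = Set.univ) (z : E → ℝ) {N S : Finset E} {e f : E} (heN : e ∉ N)
    (hfN : f ∉ N) :
    ∑ X ∈ XX M N S, (∏ a ∈ X, z a) * (ii (¬ Ind M (X ∪ {e})) * ii (¬ Ind M (X ∪ {f}))) =
      ∑ p ∈ PP M N e ×ˢ PP M N f, V M z N (S ∪ p.1 ∪ p.2) ∅ := by
  have h1 : ∀ X ∈ XX M N S, (∏ a ∈ X, z a) * (ii (¬ Ind M (X ∪ {e})) * ii (¬ Ind M (X ∪ {f}))) =
      ∑ p ∈ PP M N e ×ˢ PP M N f, (∏ a ∈ X, z a) * ii (p.1 ∪ p.2 ⊆ X) := by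
    intro X hX
    rw [dep_sum hE heN hX, dep_sum hE hfN hX, Finset.sum_mul_sum, ← Finset.sum_product', Finset.mul_sum]
    refine Finset.sum_congr rfl fun p _ => ?_
    rw [ii_mul]
    congr 2
    rw [eq_iff_iff]
    exact union_subset_iff.symm
  rw [Finset.sum_congr rfl h1, Finset.sum_comm]
  refine Finset.sum_congr rfl fun p _ => ?_
  rw [union_assoc, V_union]

/-- the set `X` contains an element `x` outside `S` such that `X - x` does not span `e` and `f` -/
def OV (M : Matroid E) (S : Finset E) (e f : E) (X : Finset E) : Prop :=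
  ¬ Ind M (insert e X) ∧ ¬ Ind M (insert f X) ∧
    ∃ x ∈ X, x ∉ S ∧ Ind M (insert e (X.erase x)) ∧ Ind M (insert f (X.erase x))

theorem ov_sum {M : Matroid E} (hE : M.E = Set.univ) {N S X : Finset E} {e f : E} (heN : e ∉ N) (hfN : f ∉ N)
    (hX : X ∈ XX M N S) :
    ∑ p ∈ (PP M N e ×ˢ PP M N f).filter (fun p => ¬ p.1 ∩ p.2 ⊆ S), ii (p.1 ∪ p.2 ⊆ X) ≤ ii (OV M S e f X) := by
  unfold XX at hX
  rw [mem_filter, mem_powerset] at hX
  by_cases h : ∃ p ∈ (PP M N e ×ˢ PP M N f).filter (fun p => ¬ p.1 ∩ p.2 ⊆ S), p.1 ∪ p.2 ⊆ X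
  · obtain ⟨p, hp, hpX⟩ := h
    rw [Finset.sum_eq_single p]
    · rw [ii_pos hpX, ii_pos]
      rw [mem_filter, mem_product] at hp
      obtain ⟨⟨hp1, hp2⟩, hp3⟩ := hp
      unfold PP at hp1 hp2
      rw [mem_filter] at hp1 hp2
      have h1 : p.1 ⊆ X := subset_union_left.trans hpX
      have h2 : p.2 ⊆ X := subset_union_right.trans hpX
      rw [not_subset] at hp3
      obtain ⟨x, hx, hxS⟩ := hp3
      rw [mem_inter] at hx
      exact ⟨not_ind_of_circ h1 hp1.2, not_ind_of_circ h2 hp2.2, x, h1 hx.1, hxS,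
        ind_erase hE hX.2.2 (fun h3 => heN (hX.1 h3)) h1 hp1.2 hx.1,
        ind_erase hE hX.2.2 (fun h3 => hfN (hX.1 h3)) h2 hp2.2 hx.2⟩
    · intro p' hp' hne
      refine ii_neg fun hp'X => hne ?_
      rw [mem_filter, mem_product] at hp hp'
      obtain ⟨⟨hp1, hp2⟩, hp3⟩ := hp
      obtain ⟨⟨hp1', hp2'⟩, hp3'⟩ := hp'
      unfold PP at hp1 hp2 hp1' hp2'
      rw [mem_filter, mem_powerset] at hp1 hp2 hp1' hp2'
      refine Prod.ext ?_ ?_
      · exact circ_unique hX.2.2 (fun h1 => heN (hp1'.1 h1)) (fun h1 => heN (hp1.1 h1))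
          (subset_union_left.trans hp'X) (subset_union_left.trans hpX) hp1'.2 hp1.2
      · exact circ_unique hX.2.2 (fun h1 => hfN (hp2'.1 h1)) (fun h1 => hfN (hp2.1 h1))
          (subset_union_right.trans hp'X) (subset_union_right.trans hpX) hp2'.2 hp2.2
    · intro h1
      exact absurd hp h1
  · rw [Finset.sum_eq_zero]
    · exact ii_nonneg _
    · intro p hp
      exact ii_neg fun h1 => h ⟨p, hp, h1⟩

/-- `e` and `f` are parallel modulo `Y` -/
def DL (M : Matroid E) (e f : E) (Y : Finset E) : Prop :=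
  Ind M (Y ∪ {e}) ∧ Ind M (Y ∪ {f}) ∧ ¬ Ind M (Y ∪ {e, f})

theorem un1 (e : E) (X : Finset E) : X ∪ {e} = insert e X := by
  ext a
  simp only [mem_union, mem_singleton, mem_insert]
  tauto

theorem un2 (e f : E) (X : Finset E) : X ∪ {e, f} = insert e (insert f X) := by
  ext a
  simp only [mem_union, mem_singleton, mem_insert]
  tauto

theorem ov_le [Fintype E] {M : Matroid E} (hE : M.E = Set.univ) {z : E → ℝ} (hz : ∀ a, 0 < z a)
    {N S : Finset E} (hD : Coc M z N) {e f : E} (hef : e ≠ f) (heN : e ∉ N) (hfN : f ∉ N) :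
    ∑ X ∈ XX M N S, (∏ a ∈ X, z a) * ii (OV M S e f X) ≤
      ∑ Y ∈ XX M N S, (∏ a ∈ Y, z a) * ii (DL M e f Y) := by
  have hl : ∑ X ∈ XX M N S, (∏ a ∈ X, z a) * ii (OV M S e f X) =
      ∑ X ∈ (XX M N S).filter (fun X => OV M S e f X), ∏ a ∈ X, z a := by
    rw [Finset.sum_filter]
    refine Finset.sum_congr rfl fun X _ => ?_
    unfold ii
    split_ifs <;> ring
  have hr : ∑ X ∈ XX M N S, (∏ a ∈ X, z a) * ii (DL M e f X) =
      ∑ X ∈ (XX M N S).filter (fun X => DL M e f X), ∏ a ∈ X, z a := by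
    rw [Finset.sum_filter]
    refine Finset.sum_congr rfl fun X _ => ?_
    unfold ii
    split_ifs <;> ring
  rw [hl, hr]
  -- choose the element
  have hch : ∀ X : Finset E, ∃ x : E, OV M S e f X →
      x ∈ X ∧ x ∉ S ∧ Ind M (insert e (X.erase x)) ∧ Ind M (insert f (X.erase x)) := by
    intro X
    by_cases h : OV M S e f X
    · obtain ⟨-, -, x, hx⟩ := h
      exact ⟨x, fun _ => hx⟩
    · exact ⟨e, fun h' => absurd h' h⟩
  choose g hg using hch
  let TT : Finset E → Finset E := fun Y =>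
    N.filter (fun x => x ∉ Y ∧ Ind M (insert x Y) ∧ ¬ Ind M (insert e (insert x Y)))
  have h1 : ∑ X ∈ (XX M N S).filter (fun X => OV M S e f X), ∏ a ∈ X, z a ≤
      ∑ Y ∈ (XX M N S).filter (fun Y => DL M e f Y), ∑ x ∈ TT Y, (z x * ∏ a ∈ Y, z a) := by
    rw [Finset.sum_sigma']
    have h2 : ∑ X ∈ (XX M N S).filter (fun X => OV M S e f X), ∏ a ∈ X, z a =
        ∑ X ∈ (XX M N S).filter (fun X => OV M S e f X),
          (fun q : (_ : Finset E) × E => z q.2 * ∏ a ∈ q.1, z a) ⟨X.erase (g X), g X⟩ := by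
      refine Finset.sum_congr rfl fun X hX => ?_
      rw [mem_filter] at hX
      exact (Finset.mul_prod_erase X z (hg X hX.2).1).symm
    have h3 : Set.InjOn (fun X : Finset E => (⟨X.erase (g X), g X⟩ : (_ : Finset E) × E))
        ((XX M N S).filter (fun X => OV M S e f X) : Finset (Finset E)) := by
      intro X hX X' hX' hXX
      rw [mem_coe, mem_filter] at hX hX'
      have h4 := congrArg Sigma.fst hXX
      have h5 := congrArg Sigma.snd hXX
      simp only at h4 h5
      rw [← Finset.insert_erase (hg X hX.2).1, ← Finset.insert_erase (hg X' hX'.2).1, h4, h5]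
    rw [h2, ← Finset.sum_image (g := fun X : Finset E => (⟨X.erase (g X), g X⟩ : (_ : Finset E) × E))
      (f := fun q : (_ : Finset E) × E => z q.2 * ∏ a ∈ q.1, z a) (fun X hX X' hX' h => h3 hX hX' h)]
    refine Finset.sum_le_sum_of_subset_of_nonneg ?_ fun q _ _ =>
      mul_nonneg (hz _).le (Finset.prod_nonneg fun a _ => (hz a).le)
    intro q hq
    rw [mem_image] at hq
    obtain ⟨X, hX, rfl⟩ := hq
    rw [mem_filter] at hX
    obtain ⟨hX1, hX2⟩ := hX
    have hX1' := hX1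
    unfold XX at hX1'
    rw [mem_filter, mem_powerset] at hX1'
    obtain ⟨hXN, hSX, hXI⟩ := hX1'
    obtain ⟨k1, k2, k3, k4⟩ := hg X hX2
    have heX : e ∉ X := fun h => heN (hXN h)
    have hfX : f ∉ X := fun h => hfN (hXN h)
    have hins : insert (g X) (X.erase (g X)) = X := Finset.insert_erase k1
    rw [mem_sigma, mem_filter]
    refine ⟨⟨?_, ?_⟩, ?_⟩
    · unfold XX
      rw [mem_filter, mem_powerset]
      refine ⟨(erase_subset _ _).trans hXN, ?_, hXI.mono (erase_subset _ _)⟩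
      intro a ha
      exact mem_erase.mpr ⟨fun h => k2 (h ▸ ha), hSX ha⟩
    · unfold DL
      rw [un1, un1, un2]
      exact ⟨k3, k4, ind_par hXI k1 hef heX hfX hX2.1 hX2.2.1⟩
    · change g X ∈ N.filter (fun x => x ∉ X.erase (g X) ∧ Ind M (insert x (X.erase (g X))) ∧
        ¬ Ind M (insert e (insert x (X.erase (g X)))))
      rw [mem_filter, hins]
      exact ⟨hXN k1, notMem_erase _ _, hXI, hX2.1⟩
  refine h1.trans (Finset.sum_le_sum fun Y hY => ?_)
  rw [mem_filter] at hY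
  obtain ⟨hY1, hY2⟩ := hY
  unfold XX at hY1
  rw [mem_filter, mem_powerset] at hY1
  unfold DL at hY2
  rw [un1, un1, un2] at hY2
  have h2 := par_bound hE hz hD hef heN hfN hY1.1 hY2.1 hY2.2.1 hY2.2.2
  rw [← Finset.sum_mul]
  have h3 : 0 ≤ ∏ a ∈ Y, z a := Finset.prod_nonneg fun a _ => (hz a).le
  calc (∑ x ∈ TT Y, z x) * ∏ a ∈ Y, z a ≤ 1 * ∏ a ∈ Y, z a := mul_le_mul_of_nonneg_right h2 h3
    _ = ∏ a ∈ Y, z a := one_mul _

/-- the key inequality -/
theorem key_ineq [Fintype E] {M : Matroid E} (hE : M.E = Set.univ) {z : E → ℝ} (hz : ∀ a, 0 < z a)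
    {N S : Finset E} (hD : Coc M z N) (hNC : NC M z N) (hS : S ⊆ N) {e f : E} (hef : e ≠ f) (heN : e ∉ N)
    (hfN : f ∉ N) :
    V M z N S ∅ * V M z N S {e, f} ≤ V M z N S {e} * V M z N S {f} := by
  set i := ∑ X ∈ XX M N S, ∏ a ∈ X, z a with hi
  set a := ∑ X ∈ XX M N S, (∏ a ∈ X, z a) * ii (¬ Ind M (X ∪ {e})) with ha
  set b := ∑ X ∈ XX M N S, (∏ a ∈ X, z a) * ii (¬ Ind M (X ∪ {f})) with hb
  set ab := ∑ X ∈ XX M N S, (∏ a ∈ X, z a) * (ii (¬ Ind M (X ∪ {e})) * ii (¬ Ind M (X ∪ {f}))) with hab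
  set d := ∑ X ∈ XX M N S, (∏ a ∈ X, z a) * ii (DL M e f X) with hd
  have v0 : V M z N S ∅ = i := by
    rw [V_eq_XX, hi]
    refine Finset.sum_congr rfl fun X hX => ?_
    unfold XX at hX
    rw [mem_filter] at hX
    rw [union_empty, ii_pos hX.2.2, mul_one]
  have v1 : V M z N S {e} = i - a := by
    rw [V_eq_XX, hi, ha, ← Finset.sum_sub_distrib]
    refine Finset.sum_congr rfl fun X _ => ?_
    by_cases h : Ind M (X ∪ {e})
    · rw [ii_pos h, ii_neg (not_not.mpr h)]
      ring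
    · rw [ii_neg h, ii_pos h]
      ring
  have v2 : V M z N S {f} = i - b := by
    rw [V_eq_XX, hi, hb, ← Finset.sum_sub_distrib]
    refine Finset.sum_congr rfl fun X _ => ?_
    by_cases h : Ind M (X ∪ {f})
    · rw [ii_pos h, ii_neg (not_not.mpr h)]
      ring
    · rw [ii_neg h, ii_pos h]
      ring
  have v3 : V M z N S {e, f} = i - a - b + ab - d := by
    rw [V_eq_XX, hi, ha, hb, hab, hd, ← Finset.sum_sub_distrib, ← Finset.sum_sub_distrib,
      ← Finset.sum_add_distrib, ← Finset.sum_sub_distrib]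
    refine Finset.sum_congr rfl fun X _ => ?_
    have m1 : Ind M (X ∪ {e, f}) → Ind M (X ∪ {e}) := fun h => h.mono (by
      intro a
      simp only [mem_union, mem_singleton, mem_insert]
      tauto)
    have m2 : Ind M (X ∪ {e, f}) → Ind M (X ∪ {f}) := fun h => h.mono (by
      intro a
      simp only [mem_union, mem_singleton, mem_insert]
      tauto)
    by_cases h3 : Ind M (X ∪ {e, f})
    · have h1 := m1 h3
      have h2 := m2 h3
      rw [ii_pos h3, ii_neg (not_not.mpr h1), ii_neg (not_not.mpr h2), ii_neg (fun h : DL M e f X => h.2.2 h3)]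
      ring
    · rw [ii_neg h3]
      by_cases h1 : Ind M (X ∪ {e})
      · by_cases h2 : Ind M (X ∪ {f})
        · rw [ii_neg (not_not.mpr h1), ii_neg (not_not.mpr h2), ii_pos (show DL M e f X from ⟨h1, h2, h3⟩)]
          ring
        · rw [ii_neg (not_not.mpr h1), ii_pos h2, ii_neg (fun h : DL M e f X => h2 h.2.1)]
          ring
      · rw [ii_pos h1, ii_neg (fun h : DL M e f X => h1 h.1)]
        ring
  -- the bound for the correlation
  have hmain : i * ab ≤ a * b + i * d := by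
    have hi0 : 0 ≤ i := Finset.sum_nonneg fun X _ => Finset.prod_nonneg fun a _ => (hz a).le
    have e1 : ab = ∑ p ∈ PP M N e ×ˢ PP M N f, V M z N (S ∪ p.1 ∪ p.2) ∅ := ab_eq hE z heN hfN
    have e2 : a * b = ∑ p ∈ PP M N e ×ˢ PP M N f, V M z N (S ∪ p.1) ∅ * V M z N (S ∪ p.2) ∅ := by
      rw [ha, hb, a_eq hE z heN, a_eq hE z hfN, Finset.sum_mul_sum, ← Finset.sum_product']
    have e3 : ab = ∑ p ∈ (PP M N e ×ˢ PP M N f).filter (fun p => p.1 ∩ p.2 ⊆ S), V M z N (S ∪ p.1 ∪ p.2) ∅ +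
        ∑ p ∈ (PP M N e ×ˢ PP M N f).filter (fun p => ¬ p.1 ∩ p.2 ⊆ S), V M z N (S ∪ p.1 ∪ p.2) ∅ := by
      rw [e1, Finset.sum_filter_add_sum_filter_not]
    have e4 : i * ∑ p ∈ (PP M N e ×ˢ PP M N f).filter (fun p => p.1 ∩ p.2 ⊆ S), V M z N (S ∪ p.1 ∪ p.2) ∅ ≤
        a * b := by
      rw [Finset.mul_sum, e2]
      refine le_trans (Finset.sum_le_sum fun p hp => ?_)
        (Finset.sum_le_sum_of_subset_of_nonneg (filter_subset _ _) fun p _ _ =>
          mul_nonneg (V_nonneg M z hz _ _ _) (V_nonneg M z hz _ _ _))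
      rw [mem_filter, mem_product] at hp
      obtain ⟨⟨hp1, hp2⟩, hp3⟩ := hp
      unfold PP at hp1 hp2
      rw [mem_filter, mem_powerset] at hp1 hp2
      have h1 := nc_sets hz hNC p.1 hp1.1 p.2 S hS hp2.1 hp3
      rw [v0] at h1
      rw [mul_comm i]
      exact h1
    have e5 : ∑ p ∈ (PP M N e ×ˢ PP M N f).filter (fun p => ¬ p.1 ∩ p.2 ⊆ S), V M z N (S ∪ p.1 ∪ p.2) ∅ ≤ d := by
      refine le_trans ?_ (ov_le (S := S) hE hz hD hef heN hfN)
      have h1 : ∀ p ∈ (PP M N e ×ˢ PP M N f).filter (fun p => ¬ p.1 ∩ p.2 ⊆ S), V M z N (S ∪ p.1 ∪ p.2) ∅ =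
          ∑ X ∈ XX M N S, (∏ a ∈ X, z a) * ii (p.1 ∪ p.2 ⊆ X) := by
        intro p _
        rw [union_assoc, V_union]
      rw [Finset.sum_congr rfl h1, Finset.sum_comm]
      refine Finset.sum_le_sum fun X hX => ?_
      rw [← Finset.mul_sum]
      exact mul_le_mul_of_nonneg_left (ov_sum hE heN hfN hX) (Finset.prod_nonneg fun a _ => (hz a).le)
    rw [e3, mul_add]
    exact add_le_add e4 (mul_le_mul_of_nonneg_left e5 hi0)
  rw [v0, v1, v2, v3]
  nlinarith [hmain]

theorem step_alg {M : Matroid E} {z : E → ℝ} (hz : ∀ a, 0 < z a) {N' S : Finset E} {p q : E} (hpq : p ≠ q)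
    (hpN' : p ∉ N') (hqN' : q ∉ N') (hSN' : S ⊆ N')
    (hk : V M z N' S ∅ * V M z N' S {p, q} ≤ V M z N' S {p} * V M z N' S {q}) :
    V M z (insert p (insert q N')) (insert p (insert q S)) ∅ * V M z (insert p (insert q N')) S ∅ ≤
      V M z (insert p (insert q N')) (insert p S) ∅ * V M z (insert p (insert q N')) (insert q S) ∅ := by
  have hSq : S ⊆ insert q N' := hSN'.trans (subset_insert _ _)
  have hpq' : p ∉ insert q N' := by
    rw [mem_insert]
    tauto
  have hqS' : insert q S ⊆ insert q N' := insert_subset_insert _ hSN'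
  have s0 : (insert p ∅ : Finset E) = {p} := rfl
  have s1 : (insert q ∅ : Finset E) = {q} := rfl
  have s2 : (insert q {p} : Finset E) = {p, q} := Finset.pair_comm q p
  -- the four sums
  have t1 : V M z (insert p (insert q N')) (insert p (insert q S)) ∅ = z p * (z q * V M z N' S {p, q}) := by
    rw [V_insert_both M z _ _ _ p hpq' hqS', V_insert_both M z _ _ _ q hqN' hSN', s0, s2]
  have t2 : V M z (insert p (insert q N')) S ∅ = V M z N' S ∅ + z q * V M z N' S {q} +
      z p * (V M z N' S {p} + z q * V M z N' S {p, q}) := by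
    rw [V_insert M z _ _ _ p hpq' hSq, V_insert M z _ _ _ q hqN' hSN', V_insert M z _ _ _ q hqN' hSN',
      s0, s1, s2]
  have t3 : V M z (insert p (insert q N')) (insert p S) ∅ =
      z p * (V M z N' S {p} + z q * V M z N' S {p, q}) := by
    rw [V_insert_both M z _ _ _ p hpq' hSq, V_insert M z _ _ _ q hqN' hSN', s0, s2]
  have t4 : V M z (insert p (insert q N')) (insert q S) ∅ =
      z q * (V M z N' S {q} + z p * V M z N' S {p, q}) := by
    rw [V_insert M z _ _ _ p hpq' hqS', V_insert_both M z _ _ _ q hqN' hSN',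
      V_insert_both M z _ _ _ q hqN' hSN', s0, s1, s2]
    ring
  rw [t1, t2, t3, t4]
  have hz1 : 0 ≤ z p * z q := (mul_pos (hz p) (hz q)).le
  nlinarith [mul_le_mul_of_nonneg_left hk hz1]

/-- negative correlation for all pairs -/
theorem nc_all [Fintype E] {M : Matroid E} (hE : M.E = Set.univ) {z : E → ℝ} (hz : ∀ a, 0 < z a) :
    ∀ (k : ℕ) (N : Finset E), N.card = k → Coc M z N → NC M z N := by
  intro k
  induction k using Nat.strong_induction_on with
  | _ k ih =>
    intro N hN hD S hS p hp q hq hpS hqS hpq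
    have hqp : q ∈ N.erase p := mem_erase.mpr ⟨hpq.symm, hq⟩
    have hN1 : insert p (insert q ((N.erase p).erase q)) = N := by
      rw [insert_erase hqp, insert_erase hp]
    have hcard : ((N.erase p).erase q).card < k := by
      have h1 := Finset.card_erase_lt_of_mem hqp
      have h2 := Finset.card_erase_lt_of_mem hp
      omega
    have hpN' : p ∉ (N.erase p).erase q := by
      rw [mem_erase, mem_erase]
      tauto
    have hqN' : q ∉ (N.erase p).erase q := by
      rw [mem_erase]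
      tauto
    have hSN' : S ⊆ (N.erase p).erase q := by
      intro a ha
      rw [mem_erase, mem_erase]
      exact ⟨fun h => hqS (h ▸ ha), fun h => hpS (h ▸ ha), hS ha⟩
    have hD' : Coc M z ((N.erase p).erase q) := hD.mono hz ((erase_subset _ _).trans (erase_subset _ _))
    have hNC' := ih _ hcard _ rfl hD'
    have hk := key_ineq hE hz hD' hNC' hSN' hpq hpN' hqN'
    have h := step_alg hz hpq hpN' hqN' hSN' hk
    rw [hN1] at h
    exact h

end Pool.Agent.Lib.MP_16c009_co_sw
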